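import Mathlib

set_option autoImplicit false

universe u

open CategoryTheory

open Polynomial

namespace Pool.Agent.Results.MP_315024_al.ExtNonvanishing

section Core

variable {L : Type*} [Field L] {n : ℕ} {ι : Type*} [Fintype ι] [DecidableEq ι]

/-- The polynomial family of intertwiners. -/
lemma exists_poly_family (X0 : Matrix ι ι L) (U : Submodule L (Matrix ι ι L))
    (h1 : (1 : Matrix ι ι L) ∈ U)
    (hU : ∀ u ∈ U, ∃ v ∈ U, v * X0 - X0 * v = X0 * u) :
    ∃ P : Matrix ι ι L[X], P.map (eval 0) = 1 ∧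
      ∀ s : L, P.map (eval s) ∈ U ∧
        P.map (eval s) * X0 = (1 + s) • (X0 * P.map (eval s)) := by
  classical
  -- linear choice of `v`
  let b := Module.finBasis L U
  choose! v hvU hv using hU
  let φ : U →ₗ[L] U := b.constr L (fun i => (⟨v (b i), hvU _ (b i).2⟩ : U))
  have hφ : ∀ u : U, (φ u : Matrix ι ι L) * X0 - X0 * (φ u : Matrix ι ι L) = X0 * (u : Matrix ι ι L) := by
    intro u
    have key : ((LinearMap.mulRight L X0 - LinearMap.mulLeft L X0) ∘ₗ U.subtype ∘ₗ φ)
        = (LinearMap.mulLeft L X0) ∘ₗ U.subtype := by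
      apply b.ext
      intro i
      simp only [LinearMap.comp_apply, LinearMap.sub_apply, Submodule.subtype_apply,
        LinearMap.mulRight_apply, LinearMap.mulLeft_apply]
      have : φ (b i) = ⟨v (b i), hvU _ (b i).2⟩ := by
        simp [φ]
      rw [this]
      exact hv _ (b i).2
    have := LinearMap.congr_fun key u
    simpa using this
  let Φ := LinearMap.toMatrix b b φ
  let N : Matrix (Fin (Module.finrank L U)) (Fin (Module.finrank L U)) L[X] :=
    1 - (Polynomial.X : L[X]) • Φ.map Polynomial.C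
  let e : Fin (Module.finrank L U) → L := b.equivFun ⟨1, h1⟩
  let w : Fin (Module.finrank L U) → L[X] := N.adjugate.mulVec (fun i => Polynomial.C (e i))
  let P : Matrix ι ι L[X] := ∑ i, w i • ((b i : Matrix ι ι L)).map Polynomial.C
  have hNs : ∀ s : L, (Polynomial.evalRingHom s).mapMatrix N = 1 - s • Φ := by
    intro s
    ext i j
    simp [N, Matrix.one_apply, apply_ite (Polynomial.eval s)]
    exact mul_comm _ _
  have hPs : ∀ s : L, P.map (eval s) = ((b.equivFun.symm (fun i => eval s (w i)) : U) : Matrix ι ι L) := by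
    intro s
    rw [Module.Basis.equivFun_symm_apply]
    ext i j
    simp [P, Matrix.sum_apply, Polynomial.eval_finsetSum]
  have hws : ∀ s : L, (fun i => eval s (w i)) = (1 - s • Φ).adjugate.mulVec e := by
    intro s
    rw [← hNs s, ← RingHom.map_adjugate]
    ext i
    simp [w, Matrix.mulVec, dotProduct, Polynomial.eval_finsetSum]
  refine ⟨P, ?_, ?_⟩
  · rw [hPs, hws]
    simp [e]
  · intro s
    constructor
    · rw [hPs]; exact Subtype.property _
    · set p : U := b.equivFun.symm (fun i => eval s (w i)) with hp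
      have hp' : b.equivFun p = (1 - s • Φ).adjugate.mulVec e := by
        rw [hp, LinearEquiv.apply_symm_apply, hws]
      have h2 : p - s • φ p = (1 - s • Φ).det • (⟨1, h1⟩ : U) := by
        apply b.equivFun.injective
        have h3 : b.equivFun (φ p) = Φ.mulVec (b.equivFun p) := by
          have := LinearMap.toMatrix_mulVec_repr b b φ p
          simpa [Φ] using this.symm
        rw [map_sub, map_smul, h3, hp', map_smul]
        have h4 : (1 - s • Φ).mulVec ((1 - s • Φ).adjugate.mulVec e) = (1 - s • Φ).det • e := by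
          rw [Matrix.mulVec_mulVec, Matrix.mul_adjugate, Matrix.smul_mulVec, Matrix.one_mulVec]
        rw [← h4, Matrix.sub_mulVec, Matrix.one_mulVec, Matrix.smul_mulVec]
      rw [hPs s, ← hp]
      have h5 : (p : Matrix ι ι L) = s • (φ p : Matrix ι ι L) + (1 - s • Φ).det • (1 : Matrix ι ι L) := by
        have := congrArg (Subtype.val) h2
        simp only [Submodule.coe_sub, Submodule.coe_smul] at this
        rw [sub_eq_iff_eq_add] at this
        rw [this]; abel
      have h6 : (p : Matrix ι ι L) * X0 - X0 * (p : Matrix ι ι L) = s • (X0 * (p : Matrix ι ι L)) := by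
        conv_lhs => rw [h5]
        rw [← hφ p]
        simp only [add_mul, mul_add, smul_mul_assoc, mul_smul_comm, one_mul, mul_one, smul_sub]
        abel
      rw [sub_eq_iff_eq_add] at h6
      rw [h6, add_smul, one_smul, add_comm]

/-- Consequence of the vanishing of self-extensions, for perturbations of one operator. -/
def ExtVan (X : Fin n → Matrix ι ι L) (a : Fin n → ℕ) (r : Fin n → Fin n → L) : Prop :=
  ∀ (i : Fin n) (f : Matrix ι ι L), (∀ j, j ≠ i → f * X j = r i j • (X j * f)) →
    ∑ k ∈ Finset.range (a i), X i ^ k * f * X i ^ (a i - 1 - k) = 0 →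
    ∃ s : Matrix ι ι L, s * X i - X i * s = f ∧ ∀ j, j ≠ i → s * X j = X j * s

/-- The space used in the deformation argument. -/
def defSpace (X : Fin n → Matrix ι ι L) (a : Fin n → ℕ) (i : Fin n) :
    Submodule L (Matrix ι ι L) where
  carrier := {g | (∀ j, j ≠ i → g * X j = X j * g) ∧
    ∀ k l, a i ≤ k + l → X i ^ k * g * X i ^ l = 0}
  add_mem' := by
    rintro g h ⟨hg1, hg2⟩ ⟨hh1, hh2⟩
    refine ⟨fun j hj => ?_, fun k l hkl => ?_⟩
    · rw [add_mul, mul_add, hg1 j hj, hh1 j hj]
    · rw [mul_add, add_mul, hg2 k l hkl, hh2 k l hkl, add_zero]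
  zero_mem' := by
    refine ⟨fun j hj => by simp, fun k l hkl => by simp⟩
  smul_mem' := by
    rintro c g ⟨hg1, hg2⟩
    refine ⟨fun j hj => ?_, fun k l hkl => ?_⟩
    · rw [smul_mul_assoc, mul_smul_comm, hg1 j hj]
    · rw [mul_smul_comm, smul_mul_assoc, hg2 k l hkl, smul_zero]

lemma comm_pow_eq (x s y : Matrix ι ι L) (h : s * x - x * s = y) (l : ℕ) :
    s * x ^ l = x ^ l * s + ∑ j ∈ Finset.range l, x ^ j * y * x ^ (l - 1 - j) := by
  induction l with
  | zero => simp
  | succ l ih =>
    rw [pow_succ', ← mul_assoc]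
    have h' : s * x = x * s + y := by rw [← h]; abel
    rw [h', add_mul, mul_assoc x s, ih, mul_add, ← mul_assoc, Finset.sum_range_succ', Finset.mul_sum]
    simp only [pow_zero, one_mul, Nat.add_sub_cancel, Nat.sub_zero]
    rw [add_assoc]
    congr 2
    apply Finset.sum_congr rfl
    intro j hj
    rw [pow_succ' x j]
    have : l - (j + 1) = l - 1 - j := by omega
    rw [this]
    simp only [mul_assoc]

lemma defSpace_lift (X : Fin n → Matrix ι ι L) (a : Fin n → ℕ) (r : Fin n → Fin n → L)
    (hX : ∀ i j, i ≠ j → X i * X j = r i j • (X j * X i))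
    (hpow : ∀ i, X i ^ a i = 0) (hE : ExtVan X a r) (i : Fin n) :
    ∀ u ∈ defSpace X a i, ∃ v ∈ defSpace X a i, v * X i - X i * v = X i * u := by
  rintro u ⟨hu1, hu2⟩
  obtain ⟨s, hs1, hs2⟩ := hE i (X i * u) (by
    intro j hj
    rw [mul_assoc, hu1 j hj, ← mul_assoc, hX i j (Ne.symm hj), smul_mul_assoc, mul_assoc]) (by
    apply Finset.sum_eq_zero
    intro k hk
    rw [Finset.mem_range] at hk
    rw [← mul_assoc, ← pow_succ]
    exact hu2 _ _ (by omega))
  refine ⟨s, ⟨hs2, ?_⟩, hs1⟩
  intro k l hkl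
  rw [mul_assoc, comm_pow_eq _ _ _ hs1, mul_add, ← mul_assoc, ← pow_add, Finset.mul_sum]
  have h0 : X i ^ (k + l) = 0 := by
    obtain ⟨m, hm⟩ := Nat.exists_eq_add_of_le hkl
    rw [hm, pow_add, hpow, zero_mul]
  rw [h0, zero_mul, zero_add]
  apply Finset.sum_eq_zero
  intro j hj
  rw [Finset.mem_range] at hj
  have : X i ^ k * (X i ^ j * (X i * u) * X i ^ (l - 1 - j)) =
      X i ^ (k + j + 1) * u * X i ^ (l - 1 - j) := by
    rw [pow_succ, pow_add]; simp only [mul_assoc]
  rw [this]
  exact hu2 _ _ (by omega)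

/-- `M` is isomorphic to its twist in one coordinate (over an infinite field). -/
lemma exists_twist_one [Infinite L] (X : Fin n → Matrix ι ι L) (a : Fin n → ℕ)
    (r : Fin n → Fin n → L)
    (hX : ∀ i j, i ≠ j → X i * X j = r i j • (X j * X i))
    (hpow : ∀ i, X i ^ a i = 0) (hE : ExtVan X a r) (i : Fin n) (t : L) (ht : t ≠ 0) :
    ∃ c : Matrix ι ι L, IsUnit c ∧ c * X i = t • (X i * c) ∧ ∀ j, j ≠ i → c * X j = X j * c := by
  classical
  obtain ⟨P, hP0, hP⟩ := exists_poly_family (X i) (defSpace X a i)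
    (by
      refine ⟨fun j hj => by simp, fun k l hkl => ?_⟩
      rw [mul_one, ← pow_add]
      obtain ⟨m, hm⟩ := Nat.exists_eq_add_of_le hkl
      rw [hm, pow_add, hpow, zero_mul])
    (defSpace_lift X a r hX hpow hE i)
  have hdet : ∀ s : L, (P.map (eval s)).det = eval s P.det := by
    intro s
    have := RingHom.map_det (Polynomial.evalRingHom s) P
    simpa using this.symm
  have hPdet : P.det ≠ 0 := by
    intro h
    have := hdet 0
    rw [hP0, h] at this
    simp at this
  have hfin : {s : L | eval s P.det = 0}.Finite := by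
    have := Polynomial.rootSet_finite P.det L
    refine this.subset ?_
    intro s hs
    rw [Polynomial.mem_rootSet]
    exact ⟨hPdet, by simpa [Polynomial.aeval_def] using hs⟩
  have hfin2 : {s : L | eval (t * (1 + s) - 1) P.det = 0}.Finite := by
    apply Set.Finite.preimage (f := fun s : L => t * (1 + s) - 1) _ hfin
    intro x _ y _ hxy
    have : t * (1 + x) - 1 = t * (1 + y) - 1 := hxy
    have h2 : t * (1 + x) = t * (1 + y) := by linear_combination this
    have h3 := mul_left_cancel₀ ht h2
    linear_combination h3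
  have hfin3 : {s : L | 1 + s = 0}.Finite := by
    apply Set.Finite.subset (Set.finite_singleton (-1 : L))
    intro s hs
    have hs' : 1 + s = 0 := hs
    simp only [Set.mem_singleton_iff]
    linear_combination hs'
  obtain ⟨s, hs⟩ := Set.Infinite.exists_notMem_finite (Set.infinite_univ (α := L))
    ((hfin.union hfin2).union hfin3)
  simp only [Set.mem_union, Set.mem_ofPred_eq, not_or, Set.mem_univ, true_and] at hs
  obtain ⟨⟨hs1, hs2⟩, hs3⟩ := hs
  obtain ⟨⟨hA1, -⟩, hA2⟩ := hP s
  obtain ⟨⟨hB1, -⟩, hB2⟩ := hP (t * (1 + s) - 1)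
  have hAu : IsUnit (P.map (eval s)) := by
    rw [Matrix.isUnit_iff_isUnit_det, hdet]; exact isUnit_iff_ne_zero.mpr hs1
  have hBu : IsUnit (P.map (eval (t * (1 + s) - 1))) := by
    rw [Matrix.isUnit_iff_isUnit_det, hdet]; exact isUnit_iff_ne_zero.mpr hs2
  obtain ⟨A, hA⟩ := hAu
  obtain ⟨B, hB⟩ := hBu
  rw [← hA] at hA1 hA2
  rw [← hB] at hB1 hB2
  refine ⟨(B * A⁻¹ : (Matrix ι ι L)ˣ), Units.isUnit _, ?_, ?_⟩
  · have h1 : ((A⁻¹ : (Matrix ι ι L)ˣ) : Matrix ι ι L) * X i
        = (1 + s)⁻¹ • (X i * ((A⁻¹ : (Matrix ι ι L)ˣ) : Matrix ι ι L)) := by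
      have h2 : ((A⁻¹ : (Matrix ι ι L)ˣ) : Matrix ι ι L) * ((A : Matrix ι ι L) * X i) *
          ((A⁻¹ : (Matrix ι ι L)ˣ) : Matrix ι ι L) = ((A⁻¹ : (Matrix ι ι L)ˣ) : Matrix ι ι L) *
          ((1 + s) • (X i * (A : Matrix ι ι L))) * ((A⁻¹ : (Matrix ι ι L)ˣ) : Matrix ι ι L) := by
        rw [hA2]
      rw [← mul_assoc, Units.inv_mul, one_mul, mul_smul_comm, smul_mul_assoc, mul_assoc, mul_assoc,
        Units.mul_inv, mul_one] at h2
      rw [h2, smul_smul, inv_mul_cancel₀ hs3, one_smul]
    rw [Units.val_mul, mul_assoc, h1, mul_smul_comm, ← mul_assoc, hB2, smul_mul_assoc, smul_smul,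
      mul_assoc]
    congr 1
    field_simp
    ring
  · intro j hj
    have h1 : ((A⁻¹ : (Matrix ι ι L)ˣ) : Matrix ι ι L) * X j
        = X j * ((A⁻¹ : (Matrix ι ι L)ˣ) : Matrix ι ι L) := by
      have h2 : ((A⁻¹ : (Matrix ι ι L)ˣ) : Matrix ι ι L) * ((A : Matrix ι ι L) * X j) *
          ((A⁻¹ : (Matrix ι ι L)ˣ) : Matrix ι ι L) = ((A⁻¹ : (Matrix ι ι L)ˣ) : Matrix ι ι L) *
          (X j * (A : Matrix ι ι L)) * ((A⁻¹ : (Matrix ι ι L)ˣ) : Matrix ι ι L) := by
        rw [hA1 j hj]
      rw [← mul_assoc, Units.inv_mul, one_mul, mul_assoc, mul_assoc,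
        Units.mul_inv, mul_one] at h2
      rw [h2]
    rw [Units.val_mul, mul_assoc, h1, ← mul_assoc, hB1 j hj, mul_assoc]

/-- `M` is isomorphic to all its twists (over an infinite field). -/
lemma exists_twist [Infinite L] (X : Fin n → Matrix ι ι L) (a : Fin n → ℕ)
    (r : Fin n → Fin n → L)
    (hX : ∀ i j, i ≠ j → X i * X j = r i j • (X j * X i))
    (hpow : ∀ i, X i ^ a i = 0) (hE : ExtVan X a r) (t : Fin n → L) (ht : ∀ j, t j ≠ 0) :
    ∃ c : Matrix ι ι L, IsUnit c ∧ ∀ j, c * X j = t j • (X j * c) := by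
  classical
  have key : ∀ S : Finset (Fin n), ∃ c : Matrix ι ι L, IsUnit c ∧ (∀ j ∈ S, c * X j = t j • (X j * c))
      ∧ (∀ j, j ∉ S → c * X j = X j * c) := by
    intro S
    induction S using Finset.induction_on with
    | empty => exact ⟨1, isUnit_one, by simp, by simp⟩
    | insert i S hi ih =>
      obtain ⟨c, hc, hc1, hc2⟩ := ih
      obtain ⟨d, hd, hd1, hd2⟩ := exists_twist_one X a r hX hpow hE i (t i) (ht i)
      refine ⟨c * d, hc.mul hd, ?_, ?_⟩
      · intro j hj
        rw [Finset.mem_insert] at hj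
        rcases eq_or_ne j i with rfl | hji
        · rw [mul_assoc, hd1, mul_smul_comm, ← mul_assoc, hc2 j hi, mul_assoc]
        · have hjS : j ∈ S := by tauto
          rw [mul_assoc, hd2 j hji, ← mul_assoc, hc1 j hjS, smul_mul_assoc, mul_assoc]
      · intro j hj
        rw [Finset.mem_insert, not_or] at hj
        rw [mul_assoc, hd2 j hj.1, ← mul_assoc, hc2 j hj.2, mul_assoc]
  obtain ⟨c, hc, hc1, -⟩ := key Finset.univ
  exact ⟨c, hc, fun j => hc1 j (Finset.mem_univ j)⟩

/-- The commutant of all the operators except the `i`-th. -/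
def commSpace (X : Fin n → Matrix ι ι L) (i : Fin n) :
    Submodule L (Matrix ι ι L) where
  carrier := {g | ∀ j, j ≠ i → g * X j = X j * g}
  add_mem' := by
    rintro g h hg hh j hj
    rw [add_mul, mul_add, hg j hj, hh j hj]
  zero_mem' := by
    intro j hj
    simp
  smul_mem' := by
    rintro c g hg j hj
    rw [smul_mul_assoc, mul_smul_comm, hg j hj]

lemma twist_pow (c x : Matrix ι ι L) (t : L) (h : c * x = t • (x * c)) (k : ℕ) :
    c * x ^ k = t ^ k • (x ^ k * c) := by
  induction k with
  | zero => simp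
  | succ k ih =>
    rw [pow_succ x k, ← mul_assoc, ih, smul_mul_assoc, mul_assoc, h, mul_smul_comm, smul_smul,
      mul_assoc, pow_succ]

lemma twist_pow' (c x : Matrix ι ι L) (t : L) (h : c * x = t • (x * c)) (k : ℕ) :
    c ^ k * x = t ^ k • (x * c ^ k) := by
  induction k with
  | zero => simp
  | succ k ih =>
    rw [pow_succ c k, mul_assoc, h, mul_smul_comm, ← mul_assoc, ih, smul_mul_assoc, smul_smul,
      mul_assoc, ← pow_succ, pow_succ' t k]

lemma twist_inv (c : (Matrix ι ι L)ˣ) (x : Matrix ι ι L) (t : L) (ht : t ≠ 0)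
    (h : (c : Matrix ι ι L) * x = t • (x * (c : Matrix ι ι L))) :
    ((c⁻¹ : (Matrix ι ι L)ˣ) : Matrix ι ι L) * x =
      t⁻¹ • (x * ((c⁻¹ : (Matrix ι ι L)ˣ) : Matrix ι ι L)) := by
  have h2 : ((c⁻¹ : (Matrix ι ι L)ˣ) : Matrix ι ι L) * ((c : Matrix ι ι L) * x) *
      ((c⁻¹ : (Matrix ι ι L)ˣ) : Matrix ι ι L) = ((c⁻¹ : (Matrix ι ι L)ˣ) : Matrix ι ι L) *
      (t • (x * (c : Matrix ι ι L))) * ((c⁻¹ : (Matrix ι ι L)ˣ) : Matrix ι ι L) := by
    rw [h]
  rw [← mul_assoc, Units.inv_mul, one_mul, mul_smul_comm, smul_mul_assoc, mul_assoc, mul_assoc,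
    Units.mul_inv, mul_one] at h2
  rw [h2, smul_smul, inv_mul_cancel₀ ht, one_smul]

/-- `∑ x^k f x^(a-1-k)` is twisted-commuting when `f` is. -/
lemma trace_twist (f x y : Matrix ι ι L) (r : L) (hxy : x * y = r • (y * x)) (μ : L)
    (hf : f * y = μ • (y * f)) (a : ℕ) :
    (∑ k ∈ Finset.range a, x ^ k * f * x ^ (a - 1 - k)) * y =
      (r ^ (a - 1) * μ) • (y * ∑ k ∈ Finset.range a, x ^ k * f * x ^ (a - 1 - k)) := by
  have hx : ∀ l : ℕ, x ^ l * y = r ^ l • (y * x ^ l) := fun l => twist_pow' x y r hxy l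
  rw [Finset.sum_mul, Finset.mul_sum, Finset.smul_sum]
  apply Finset.sum_congr rfl
  intro k hk
  rw [Finset.mem_range] at hk
  rw [mul_assoc, hx, mul_smul_comm, ← mul_assoc, mul_assoc (x ^ k), hf, mul_smul_comm,
    ← mul_assoc, hx, smul_mul_assoc, smul_mul_assoc, smul_mul_assoc, smul_smul, smul_smul]
  have : r ^ (a - 1 - k) * μ * r ^ k = r ^ (a - 1) * μ := by
    have h : a - 1 = (a - 1 - k) + k := by omega
    conv_rhs => rw [h, pow_add]
    ring
  rw [this]
  simp only [mul_assoc]

lemma trace_comm (f x : Matrix ι ι L) (a : ℕ) (hx : x ^ a = 0) :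
    (∑ k ∈ Finset.range a, x ^ k * f * x ^ (a - 1 - k)) * x =
      x * ∑ k ∈ Finset.range a, x ^ k * f * x ^ (a - 1 - k) := by
  rcases Nat.eq_zero_or_pos a with rfl | ha
  · simp
  obtain ⟨b, rfl⟩ : ∃ b, a = b + 1 := ⟨a - 1, by omega⟩
  rw [Finset.sum_mul, Finset.mul_sum, Finset.sum_range_succ', Finset.sum_range_succ]
  have h1 : x ^ 0 * f * x ^ (b + 1 - 1 - 0) * x = 0 := by
    rw [mul_assoc, ← pow_succ]
    have : b + 1 - 1 - 0 + 1 = b + 1 := by omega
    rw [this, hx, mul_zero]
  have h2 : x * (x ^ b * f * x ^ (b + 1 - 1 - b)) = 0 := by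
    rw [← mul_assoc, ← mul_assoc, ← pow_succ', hx, zero_mul, zero_mul]
  rw [h1, h2, add_zero, add_zero]
  apply Finset.sum_congr rfl
  intro k hk
  rw [Finset.mem_range] at hk
  rw [mul_assoc (x ^ (k + 1) * f), ← pow_succ, pow_succ' x k]
  have : b + 1 - 1 - (k + 1) + 1 = b + 1 - 1 - k := by omega
  rw [this]
  simp only [mul_assoc]

/-- The element `f_i` (over an infinite field). -/
lemma exists_trace_one_infinite [Infinite L] (X : Fin n → Matrix ι ι L) (a : Fin n → ℕ)
    (r : Fin n → Fin n → L) (hr : ∀ i j, i ≠ j → r i j ≠ 0)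
    (hX : ∀ i j, i ≠ j → X i * X j = r i j • (X j * X i))
    (hpow : ∀ i, X i ^ a i = 0) (ha : ∀ i, 1 ≤ a i) (hE : ExtVan X a r) (i : Fin n) :
    ∃ f : Matrix ι ι L, (∀ j, j ≠ i → r i j ^ (a i - 1) • (f * X j) = X j * f) ∧
      ∑ k ∈ Finset.range (a i), X i ^ k * f * X i ^ (a i - 1 - k) = 1 := by
  classical
  obtain ⟨c0, hc0, hc⟩ := exists_twist X a r hX hpow hE (fun j => if j = i then 1 else r i j)
    (by
      intro j
      by_cases h : j = i
      · simp [h]
      · simpa [h] using hr i j (Ne.symm h))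
  obtain ⟨c, rfl⟩ := hc0
  have hci : (c : Matrix ι ι L) * X i = X i * (c : Matrix ι ι L) := by
    have := hc i
    simpa using this
  have hcj : ∀ j, j ≠ i → (c : Matrix ι ι L) * X j = r i j • (X j * (c : Matrix ι ι L)) := by
    intro j hj
    have := hc j
    simpa [hj] using this
  set C : Matrix ι ι L := (c : Matrix ι ι L) with hC
  set D : Matrix ι ι L := ((c⁻¹ : (Matrix ι ι L)ˣ) : Matrix ι ι L) with hD
  have hCD : C * D = 1 := Units.mul_inv c
  have hDC : D * C = 1 := Units.inv_mul c
  have hDi : D * X i = X i * D := by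
    have := twist_inv c (X i) 1 one_ne_zero (by simpa using hci)
    rwa [inv_one, one_smul] at this
  have hDj : ∀ j, j ≠ i → D * X j = (r i j)⁻¹ • (X j * D) := by
    intro j hj
    exact twist_inv c (X j) (r i j) (hr i j (Ne.symm hj)) (hcj j hj)
  -- the two maps
  let δ₀ : Matrix ι ι L →ₗ[L] Matrix ι ι L :=
    LinearMap.mulRight L D ∘ₗ (LinearMap.mulRight L (X i) - LinearMap.mulLeft L (X i))
  have hδ₀ : ∀ s, δ₀ s = (s * X i - X i * s) * D := by
    intro s; simp [δ₀]
  let T₀ : Matrix ι ι L →ₗ[L] Matrix ι ι L :=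
    LinearMap.mulRight L (D ^ a i) ∘ₗ
      (∑ k ∈ Finset.range (a i), LinearMap.mulRight L (X i ^ (a i - 1 - k)) ∘ₗ
        LinearMap.mulLeft L (X i ^ k)) ∘ₗ LinearMap.mulRight L C
  have hT₀ : ∀ z, T₀ z = (∑ k ∈ Finset.range (a i), X i ^ k * (z * C) * X i ^ (a i - 1 - k)) *
      D ^ a i := by
    intro z
    simp only [T₀, LinearMap.comp_apply, LinearMap.sum_apply, LinearMap.mulRight_apply,
      LinearMap.mulLeft_apply]
  have hδZ : ∀ s ∈ commSpace X i, δ₀ s ∈ commSpace X i := by
    intro s hs j hj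
    have hs' : s * X j = X j * s := hs j hj
    have hrj := hr i j (Ne.symm hj)
    rw [hδ₀, mul_assoc, hDj j hj, mul_smul_comm, ← mul_assoc]
    have : (s * X i - X i * s) * X j = r i j • (X j * (s * X i - X i * s)) := by
      rw [sub_mul, mul_assoc, hX i j (Ne.symm hj), mul_smul_comm, ← mul_assoc, hs', mul_assoc (X i),
        hs', ← mul_assoc (X i), hX i j (Ne.symm hj), smul_mul_assoc, ← smul_sub, mul_sub]
      simp only [mul_assoc]
    rw [this, smul_mul_assoc, smul_smul, inv_mul_cancel₀ hrj, one_smul, mul_assoc]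
  have hTZ : ∀ z ∈ commSpace X i, T₀ z ∈ commSpace X i := by
    intro z hz j hj
    have hz' : z * X j = X j * z := hz j hj
    have hrj := hr i j (Ne.symm hj)
    have hf : (z * C) * X j = r i j • (X j * (z * C)) := by
      rw [mul_assoc, hcj j hj, mul_smul_comm, ← mul_assoc, hz', mul_assoc]
    rw [hT₀, mul_assoc, twist_pow' D (X j) _ (hDj j hj), mul_smul_comm, ← mul_assoc,
      trace_twist (z * C) (X i) (X j) (r i j) (hX i j (Ne.symm hj)) (r i j) hf (a i),
      smul_mul_assoc, smul_smul, mul_assoc]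
    have : (r i j)⁻¹ ^ a i * (r i j ^ (a i - 1) * r i j) = 1 := by
      rw [← pow_succ, Nat.sub_add_cancel (ha i), ← mul_pow, inv_mul_cancel₀ hrj, one_pow]
    rw [this, one_smul]
  let δ : commSpace X i →ₗ[L] commSpace X i := δ₀.restrict hδZ
  let T : commSpace X i →ₗ[L] commSpace X i := T₀.restrict hTZ
  have hDpow : D ^ a i * C ^ a i = 1 := by
    have : Commute D C := by rw [Commute, SemiconjBy, hDC, hCD]
    rw [← this.mul_pow, hDC, one_pow]
  -- exactness in the middle
  have hker : LinearMap.ker T ≤ LinearMap.range δ := by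
    intro z hz
    rw [LinearMap.mem_ker] at hz
    have hz' : T₀ (z : Matrix ι ι L) = 0 := by
      have := congrArg Subtype.val hz
      simpa [T] using this
    rw [hT₀] at hz'
    have hz2 : ∑ k ∈ Finset.range (a i), X i ^ k * ((z : Matrix ι ι L) * C) *
        X i ^ (a i - 1 - k) = 0 := by
      have := congrArg (· * C ^ a i) hz'
      simpa [mul_assoc, hDpow] using this
    have hzc := z.2
    obtain ⟨s, hs1, hs2⟩ := hE i ((z : Matrix ι ι L) * C) (by
      intro j hj
      have hz' : (z : Matrix ι ι L) * X j = X j * z := hzc j hj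
      rw [mul_assoc, hcj j hj, mul_smul_comm, ← mul_assoc, hz', mul_assoc]) hz2
    refine ⟨⟨s, hs2⟩, ?_⟩
    apply Subtype.ext
    change δ₀ s = _
    rw [hδ₀, hs1, mul_assoc, hCD, mul_one]
  have hTδ : LinearMap.range δ ≤ LinearMap.ker T := by
    rintro z ⟨s, rfl⟩
    rw [LinearMap.mem_ker]
    apply Subtype.ext
    change T₀ (δ₀ s) = 0
    rw [hT₀, hδ₀]
    have h1 : ∀ k ∈ Finset.range (a i), X i ^ k * (((s : Matrix ι ι L) * X i - X i * s) * D * C) *
        X i ^ (a i - 1 - k) =
        X i ^ k * (s : Matrix ι ι L) * X i ^ (a i - k) -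
        X i ^ (k + 1) * (s : Matrix ι ι L) * X i ^ (a i - (k + 1)) := by
      intro k hk
      rw [Finset.mem_range] at hk
      have e1 : a i - k = (a i - 1 - k) + 1 := by omega
      have e2 : a i - (k + 1) = a i - 1 - k := by omega
      rw [mul_assoc _ D C, hDC, mul_one, mul_sub, sub_mul, e2, e1, pow_succ' (X i) (a i - 1 - k),
        pow_succ]
      simp only [mul_assoc]
    rw [Finset.sum_congr rfl h1, Finset.sum_range_sub']
    simp [hpow]
  have hδT : LinearMap.range T ≤ LinearMap.ker δ := by
    rintro z ⟨s, rfl⟩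
    rw [LinearMap.mem_ker]
    apply Subtype.ext
    change δ₀ (T₀ s) = 0
    rw [hT₀, hδ₀]
    have h1 : D ^ a i * X i = X i * D ^ a i := by
      have := twist_pow' D (X i) 1 (by simpa using hDi) (a i)
      simpa using this
    rw [mul_assoc, h1, ← mul_assoc, trace_comm _ _ _ (hpow i), mul_assoc (X i), sub_self, zero_mul]
  have heq : LinearMap.range T = LinearMap.ker δ := by
    apply Submodule.eq_of_le_of_finrank_eq hδT
    have h1 := LinearMap.finrank_range_add_finrank_ker T
    have h2 := LinearMap.finrank_range_add_finrank_ker δ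
    have h3 : LinearMap.ker T = LinearMap.range δ := le_antisymm hker hTδ
    rw [h3] at h1
    omega
  have hone : (⟨1, by intro j hj; simp⟩ : commSpace X i) ∈ LinearMap.ker δ := by
    rw [LinearMap.mem_ker]
    apply Subtype.ext
    change δ₀ 1 = 0
    rw [hδ₀]; simp
  rw [← heq] at hone
  obtain ⟨z, hz⟩ := hone
  have hz1 : T₀ (z : Matrix ι ι L) = 1 := congrArg Subtype.val hz
  rw [hT₀] at hz1
  refine ⟨(z : Matrix ι ι L) * C * D ^ a i, ?_, ?_⟩
  · intro j hj
    have hz' : (z : Matrix ι ι L) * X j = X j * z := z.2 j hj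
    have hrj := hr i j (Ne.symm hj)
    rw [mul_assoc, twist_pow' D (X j) _ (hDj j hj), mul_smul_comm, mul_assoc (z : Matrix ι ι L),
      ← mul_assoc C, hcj j hj, smul_mul_assoc, mul_smul_comm, smul_smul, smul_smul, ← mul_assoc,
      ← mul_assoc, hz']
    have : r i j ^ (a i - 1) * (r i j)⁻¹ ^ a i * r i j = 1 := by
      have h : (r i j)⁻¹ ^ a i = (r i j)⁻¹ ^ (a i - 1) * (r i j)⁻¹ := by
        rw [← pow_succ, Nat.sub_add_cancel (ha i)]
      rw [h]
      have h3 : r i j ^ (a i - 1) * (r i j)⁻¹ ^ (a i - 1) = 1 := by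
        rw [← mul_pow, mul_inv_cancel₀ hrj, one_pow]
      have h4 : (r i j)⁻¹ * r i j = 1 := inv_mul_cancel₀ hrj
      linear_combination (1 : L) * h3 + (r i j ^ (a i - 1) * (r i j)⁻¹ ^ (a i - 1)) * h4
    rw [this, one_smul]
    simp only [mul_assoc]
  · rw [← hz1, Finset.sum_mul]
    apply Finset.sum_congr rfl
    intro k hk
    have h1 : D ^ a i * X i = X i * D ^ a i := by
      have := twist_pow' D (X i) 1 (by simpa using hDi) (a i)
      simpa using this
    have h2 := twist_pow (D ^ a i) (X i) 1 (by simpa using h1) (a i - 1 - k)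
    rw [one_pow, one_smul] at h2
    simp only [mul_assoc] at h2 ⊢
    rw [h2]

/-- The element `f_i` (over any field). -/
lemma exists_trace_one {K : Type*} [Field K] (X : Fin n → Matrix ι ι K) (a : Fin n → ℕ)
    (r : Fin n → Fin n → K) (hr : ∀ i j, i ≠ j → r i j ≠ 0)
    (hX : ∀ i j, i ≠ j → X i * X j = r i j • (X j * X i))
    (hpow : ∀ i, X i ^ a i = 0) (ha : ∀ i, 1 ≤ a i) (hE : ExtVan X a r) (i : Fin n) :
    ∃ f : Matrix ι ι K, (∀ j, j ≠ i → r i j ^ (a i - 1) • (f * X j) = X j * f) ∧
      ∑ k ∈ Finset.range (a i), X i ^ k * f * X i ^ (a i - 1 - k) = 1 := by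
  classical
  let E := AlgebraicClosure K
  have : Infinite E := IsAlgClosed.instInfinite
  let A : K →+* E := algebraMap K E
  -- entrywise application of a `K`-linear map `ρ : E → K`
  have map_mul_left : ∀ (ρ : E →ₗ[K] K) (P : Matrix ι ι K) (Q : Matrix ι ι E),
      (P.map A * Q).map ρ = P * Q.map ρ := by
    intro ρ P Q
    ext x y
    simp only [Matrix.map_apply, Matrix.mul_apply, map_sum]
    apply Finset.sum_congr rfl
    intro z _
    have : A (P x z) * Q z y = P x z • Q z y := by rw [Algebra.smul_def]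
    rw [this, map_smul, smul_eq_mul]
  have map_mul_right : ∀ (ρ : E →ₗ[K] K) (P : Matrix ι ι K) (Q : Matrix ι ι E),
      (Q * P.map A).map ρ = Q.map ρ * P := by
    intro ρ P Q
    ext x y
    simp only [Matrix.map_apply, Matrix.mul_apply, map_sum]
    apply Finset.sum_congr rfl
    intro z _
    have : Q x z * A (P z y) = P z y • Q x z := by rw [Algebra.smul_def, mul_comm]
    rw [this, map_smul, smul_eq_mul, mul_comm]
  have map_smul' : ∀ (ρ : E →ₗ[K] K) (c : K) (Q : Matrix ι ι E),
      (A c • Q).map ρ = c • Q.map ρ := by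
    intro ρ c Q
    ext x y
    simp only [Matrix.map_apply, Matrix.smul_apply, smul_eq_mul]
    have : A c * Q x y = c • Q x y := by rw [Algebra.smul_def]
    rw [this, map_smul, smul_eq_mul]
  have map_pow' : ∀ (P : Matrix ι ι K) (k : ℕ), (P.map A) ^ k = (P ^ k).map A := by
    intro P k
    have := map_pow A.mapMatrix P k
    simpa using this.symm
  have hr' : ∀ i j, i ≠ j → A (r i j) ≠ 0 := by
    intro i j hij h
    exact hr i j hij ((map_eq_zero A).mp h)
  have hX' : ∀ i j, i ≠ j → (X i).map A * (X j).map A = A (r i j) • ((X j).map A * (X i).map A) := by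
    intro i j hij
    have h1 : (X i).map A * (X j).map A = (X i * X j).map A := (Matrix.map_mul).symm
    have h2 : (X j).map A * (X i).map A = (X j * X i).map A := (Matrix.map_mul).symm
    rw [h1, h2, hX i j hij]
    ext x y
    simp only [Matrix.map_apply, Matrix.smul_apply, smul_eq_mul, map_mul]
  have hpow' : ∀ i, ((X i).map A) ^ a i = 0 := by
    intro i
    rw [map_pow', hpow i]
    ext x y
    simp
  let b := Module.Basis.ofVectorSpace K E
  have hE' : ExtVan (fun i => (X i).map A) a (fun i j => A (r i j)) := by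
    intro i f hf hf2
    -- coordinates
    let fc : Module.Basis.ofVectorSpaceIndex K E → Matrix ι ι K := fun u => f.map (b.coord u)
    have h1 : ∀ u j, j ≠ i → fc u * X j = r i j • (X j * fc u) := by
      intro u j hj
      have := congrArg (fun Q : Matrix ι ι E => Q.map (b.coord u)) (hf j hj)
      simp only [map_mul_right, map_smul', map_mul_left] at this
      exact this
    have h2 : ∀ u, ∑ k ∈ Finset.range (a i), X i ^ k * fc u * X i ^ (a i - 1 - k) = 0 := by
      intro u
      have := congrArg (fun Q : Matrix ι ι E => Q.map (b.coord u)) hf2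
      simp only [map_pow'] at this
      have h3 : (∑ k ∈ Finset.range (a i), (X i ^ k).map A * f * (X i ^ (a i - 1 - k)).map A).map
          (b.coord u) = ∑ k ∈ Finset.range (a i),
            ((X i ^ k).map A * f * (X i ^ (a i - 1 - k)).map A).map (b.coord u) := by
        ext x y
        simp [Matrix.sum_apply]
      rw [h3] at this
      simp only [map_mul_right, map_mul_left] at this
      rw [this]
      ext x y
      simp
    choose s hs1 hs2 using fun u => hE i (fc u) (h1 u) (h2 u)
    -- only finitely many coordinates are needed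
    let supp : Finset (Module.Basis.ofVectorSpaceIndex K E) :=
      Finset.univ.biUnion fun x : ι => Finset.univ.biUnion fun y : ι => (b.repr (f x y)).support
    have hfsum : f = ∑ u ∈ supp, b u • (fc u).map A := by
      ext x y
      simp only [Matrix.sum_apply, Matrix.smul_apply, Matrix.map_apply, fc, smul_eq_mul,
        Module.Basis.coord_apply]
      conv_lhs => rw [← b.linearCombination_repr (f x y), Finsupp.linearCombination_apply,
        Finsupp.sum]
      rw [Finset.sum_subset (s₂ := supp)]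
      · apply Finset.sum_congr rfl
        intro u _
        rw [Algebra.smul_def, mul_comm]
      · intro u hu
        simp only [supp, Finset.mem_biUnion, Finset.mem_univ, true_and]
        exact ⟨x, y, hu⟩
      · intro u _ hu
        rw [Finsupp.notMem_support_iff.mp hu, zero_smul]
    refine ⟨∑ u ∈ supp, b u • (s u).map A, ?_, ?_⟩
    · conv_rhs => rw [hfsum]
      rw [Finset.sum_mul, Finset.mul_sum, ← Finset.sum_sub_distrib]
      apply Finset.sum_congr rfl
      intro u _
      rw [smul_mul_assoc, mul_smul_comm, ← smul_sub, ← hs1 u]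
      congr 1
      ext x y
      simp [Matrix.mul_apply]
    · intro j hj
      rw [Finset.sum_mul, Finset.mul_sum]
      apply Finset.sum_congr rfl
      intro u _
      rw [smul_mul_assoc, mul_smul_comm]
      congr 1
      have := congrArg (fun Q : Matrix ι ι K => Q.map A) (hs2 u j hj)
      simpa using this
  obtain ⟨F, hF1, hF2⟩ := exists_trace_one_infinite (fun i => (X i).map A) a
    (fun i j => A (r i j)) hr' hX' hpow' ha hE' i
  -- a `K`-linear retraction of `K → E`
  obtain ⟨ρ, hρ⟩ := (Algebra.linearMap K E).exists_leftInverse_of_injective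
    (LinearMap.ker_eq_bot.mpr (FaithfulSMul.algebraMap_injective K E))
  have hρ1 : ∀ c : K, ρ (A c) = c := by
    intro c
    have := LinearMap.congr_fun hρ c
    simpa using this
  refine ⟨F.map ρ, ?_, ?_⟩
  · intro j hj
    have := congrArg (fun Q : Matrix ι ι E => Q.map ρ) (hF1 j hj)
    simp only [← map_pow, map_mul_right, map_smul', map_mul_left] at this
    exact this
  · have := congrArg (fun Q : Matrix ι ι E => Q.map ρ) hF2
    simp only [map_pow'] at this
    have h3 : (∑ k ∈ Finset.range (a i), (X i ^ k).map A * F * (X i ^ (a i - 1 - k)).map A).map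
        ρ = ∑ k ∈ Finset.range (a i),
          ((X i ^ k).map A * F * (X i ^ (a i - 1 - k)).map A).map ρ := by
      ext x y
      simp [Matrix.sum_apply]
    rw [h3] at this
    simp only [map_mul_right, map_mul_left] at this
    rw [this]
    ext x y
    have h1 : ρ 1 = 1 := by simpa using hρ1 1
    rw [Matrix.map_apply, Matrix.one_apply, Matrix.one_apply]
    split_ifs <;> simp [h1]

end Core


/-- The defining relations of the quantum complete intersection. -/
inductive Rel {K : Type u} [Field K] {n : ℕ} (a : Fin n → ℕ) (q : Fin n → Fin n → K) :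
    FreeAlgebra K (Fin n) → FreeAlgebra K (Fin n) → Prop
  | pow (i : Fin n) : Rel a q (FreeAlgebra.ι K i ^ a i) 0
  | comm (i j : Fin n) (h : j < i) :
      Rel a q (FreeAlgebra.ι K i * FreeAlgebra.ι K j +
        q i j • (FreeAlgebra.ι K j * FreeAlgebra.ι K i)) 0

/-- The quantum complete intersection. -/
abbrev QuantumCI {K : Type u} [Field K] {n : ℕ} (a : Fin n → ℕ) (q : Fin n → Fin n → K) :
    Type u := RingQuot (Rel a q)

section

variable {K : Type u} [Field K] {n : ℕ} (a : Fin n → ℕ) (q : Fin n → Fin n → K)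

/-- The generators. -/
noncomputable def gen (i : Fin n) : QuantumCI a q :=
  RingQuot.mkAlgHom K (Rel a q) (FreeAlgebra.ι K i)

lemma gen_pow (i : Fin n) : gen a q i ^ a i = 0 := by
  have := RingQuot.mkAlgHom_rel K (Rel.pow (a := a) (q := q) i)
  rw [map_pow, map_zero] at this
  exact this

lemma gen_comm (i j : Fin n) (h : j < i) :
    gen a q i * gen a q j + q i j • (gen a q j * gen a q i) = 0 := by
  have := RingQuot.mkAlgHom_rel K (Rel.comm (a := a) (q := q) i j h)
  rw [map_add, map_smul, map_mul, map_mul, map_zero] at this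
  exact this

lemma induction_gen {P : QuantumCI a q → Prop} (hK : ∀ c : K, P (algebraMap K _ c))
    (hgen : ∀ i, P (gen a q i)) (hadd : ∀ x y, P x → P y → P (x + y))
    (hmul : ∀ x y, P x → P y → P (x * y)) (x : QuantumCI a q) : P x := by
  obtain ⟨y, rfl⟩ := RingQuot.mkAlgHom_surjective K (Rel a q) x
  induction y using FreeAlgebra.induction with
  | grade0 c => rw [AlgHom.commutes]; exact hK c
  | grade1 i => exact hgen i
  | mul x y hx hy => rw [map_mul]; exact hmul _ _ hx hy
  | add x y hx hy => rw [map_add]; exact hadd _ _ hx hy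

/-- Twisted commutation parameters, for the operators of a right module. -/
noncomputable def rr (i j : Fin n) : K := if i < j then - q j i else (- q i j)⁻¹

lemma gen_mul_gen (hq : ∀ i j, j < i → q i j ≠ 0) (i j : Fin n) (hij : i ≠ j) :
    gen a q j * gen a q i = rr q i j • (gen a q i * gen a q j) := by
  rcases lt_or_gt_of_ne hij with h | h
  · have := gen_comm a q j i h
    rw [rr, if_pos h]
    exact (eq_neg_of_add_eq_zero_left this).trans (neg_smul (q j i) (gen a q i * gen a q j)).symm
  · have := gen_comm a q i j h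
    rw [rr, if_neg (not_lt.mpr h.le)]
    have h0 := hq i j h
    have h1 : gen a q i * gen a q j = (- q i j) • (gen a q j * gen a q i) := by
      exact (eq_neg_of_add_eq_zero_left this).trans
        (neg_smul (q i j) (gen a q j * gen a q i)).symm
    rw [h1, smul_smul, inv_mul_cancel₀ (neg_ne_zero.mpr h0), one_smul]

lemma rr_ne_zero (hq : ∀ i j, j < i → q i j ≠ 0) (i j : Fin n) (hij : i ≠ j) :
    rr q i j ≠ 0 := by
  rcases lt_or_gt_of_ne hij with h | h
  · rw [rr, if_pos h]; exact neg_ne_zero.mpr (hq _ _ h)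
  · rw [rr, if_neg (not_lt.mpr h.le)]; exact inv_ne_zero (neg_ne_zero.mpr (hq _ _ h))

/-- The span of the powers of one generator. -/
noncomputable def powSpan (i : Fin n) : Submodule K (QuantumCI a q) :=
  Submodule.span K ((fun k : ℕ => gen a q i ^ k) '' (Set.Iio (a i) ∪ {0}))

lemma one_mem_powSpan (i : Fin n) : (1 : QuantumCI a q) ∈ powSpan a q i := by
  apply Submodule.subset_span
  exact ⟨0, Or.inr rfl, by simp⟩

lemma powSpan_fg (i : Fin n) : (powSpan a q i).FG := by
  apply Submodule.fg_span
  apply Set.Finite.image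
  exact (Set.finite_Iio (a i)).union (Set.finite_singleton 0)

lemma gen_mul_powSpan (i : Fin n) :
    Submodule.span K {gen a q i} * powSpan a q i ≤ powSpan a q i := by
  rw [powSpan, Submodule.span_mul_span, Submodule.span_le]
  rintro _ ⟨_, rfl, _, ⟨k, hk, rfl⟩, rfl⟩
  change gen a q i * gen a q i ^ k ∈ _
  rw [← pow_succ']
  by_cases h : k + 1 < a i
  · apply Submodule.subset_span
    exact ⟨k + 1, Or.inl h, rfl⟩
  · have : gen a q i ^ (k + 1) = 0 := by
      obtain ⟨m, hm⟩ := Nat.exists_eq_add_of_le (not_lt.mp h)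
      rw [hm, pow_add, gen_pow, zero_mul]
    rw [this]
    exact Submodule.zero_mem _

lemma gen_mul_pow (hq : ∀ i j, j < i → q i j ≠ 0) (i j : Fin n) (hij : i ≠ j) (k : ℕ) :
    gen a q j * gen a q i ^ k = (rr q i j) ^ k • (gen a q i ^ k * gen a q j) := by
  induction k with
  | zero => simp
  | succ k ih =>
    rw [pow_succ, ← mul_assoc, ih, smul_mul_assoc, mul_assoc, gen_mul_gen a q hq i j hij,
      mul_smul_comm, smul_smul, pow_succ, mul_assoc]

lemma gen_mul_powSpan' (hq : ∀ i j, j < i → q i j ≠ 0) (i j : Fin n) (hij : i ≠ j) :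
    Submodule.span K {gen a q j} * powSpan a q i ≤
      powSpan a q i * Submodule.span K {gen a q j} := by
  rw [powSpan, Submodule.span_mul_span, Submodule.span_le]
  rintro _ ⟨_, rfl, _, ⟨k, hk, rfl⟩, rfl⟩
  change gen a q j * gen a q i ^ k ∈ _
  rw [gen_mul_pow a q hq i j hij]
  apply Submodule.smul_mem
  apply Submodule.mul_mem_mul
  · exact Submodule.subset_span ⟨k, hk, rfl⟩
  · exact Submodule.mem_span_singleton_self _

lemma gen_mul_prod (hq : ∀ i j, j < i → q i j ≠ 0) (j : Fin n) (l : List (Fin n)) (hj : j ∈ l) :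
    Submodule.span K {gen a q j} * (l.map (powSpan a q)).prod ≤ (l.map (powSpan a q)).prod := by
  induction l with
  | nil => simp at hj
  | cons i l ih =>
    rw [List.map_cons, List.prod_cons, ← mul_assoc]
    rcases eq_or_ne i j with rfl | hij
    · exact mul_le_mul' (gen_mul_powSpan a q i) le_rfl
    · have hj' : j ∈ l := by
        rcases List.mem_cons.mp hj with h | h
        · exact absurd h.symm hij
        · exact h
      calc Submodule.span K {gen a q j} * powSpan a q i * (l.map (powSpan a q)).prod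
          ≤ powSpan a q i * Submodule.span K {gen a q j} * (l.map (powSpan a q)).prod :=
            mul_le_mul' (gen_mul_powSpan' a q hq i j hij) le_rfl
        _ = powSpan a q i * (Submodule.span K {gen a q j} * (l.map (powSpan a q)).prod) := by
            rw [mul_assoc]
        _ ≤ powSpan a q i * (l.map (powSpan a q)).prod := mul_le_mul' le_rfl (ih hj')

lemma finite_QuantumCI (hq : ∀ i j, j < i → q i j ≠ 0) : Module.Finite K (QuantumCI a q) := by
  set W : Submodule K (QuantumCI a q) := ((List.finRange n).map (powSpan a q)).prod with hW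
  have hfg : ∀ l : List (Fin n), ((l.map (powSpan a q)).prod).FG := by
    intro l
    induction l with
    | nil =>
      rw [List.map_nil, List.prod_nil, Submodule.one_eq_span]
      exact Submodule.fg_span_singleton _
    | cons i l ih => rw [List.map_cons, List.prod_cons]; exact (powSpan_fg a q i).mul ih
  have hone : ∀ l : List (Fin n), (1 : QuantumCI a q) ∈ (l.map (powSpan a q)).prod := by
    intro l
    induction l with
    | nil =>
      rw [List.map_nil, List.prod_nil]
      exact Submodule.one_le.mp le_rfl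
    | cons i l ih =>
      rw [List.map_cons, List.prod_cons]
      have := Submodule.mul_mem_mul (one_mem_powSpan a q i) ih
      rwa [one_mul] at this
  have hclosed : ∀ x y : QuantumCI a q, y ∈ W → x * y ∈ W := by
    intro x
    induction x using induction_gen a q with
    | hK c =>
      intro y hy
      rw [← Algebra.smul_def]
      exact W.smul_mem c hy
    | hgen i =>
      intro y hy
      apply gen_mul_prod a q hq i (List.finRange n) (List.mem_finRange i)
      exact Submodule.mul_mem_mul (Submodule.mem_span_singleton_self _) hy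
    | hadd x z hx hz =>
      intro y hy
      rw [add_mul]
      exact W.add_mem (hx y hy) (hz y hy)
    | hmul x z hx hz =>
      intro y hy
      rw [mul_assoc]
      exact hx _ (hz y hy)
  have htop : W = ⊤ := by
    rw [eq_top_iff]
    intro x _
    have := hclosed x 1 (hone _)
    rwa [mul_one] at this
  exact ⟨by rw [← htop]; exact hfg _⟩

end

section ExtPart

open CategoryTheory

lemma exists_section_of_subsingleton_ext {R : Type u} [Ring R] (M E : Type u)
    [AddCommGroup M] [AddCommGroup E] [Module R M] [Module R E]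
    (f : M →ₗ[R] E) (g : E →ₗ[R] M) (hf : Function.Injective f) (hg : Function.Surjective g)
    (hfg : Function.Exact f g)
    (h : Subsingleton (Abelian.Ext (ModuleCat.of R M) (ModuleCat.of R M) 1)) :
    ∃ s : M →ₗ[R] E, g ∘ₗ s = LinearMap.id := by
  let S : ShortComplex (ModuleCat.{u} R) :=
    ShortComplex.moduleCatMk f g (by ext x; exact hfg.apply_apply_eq_zero x)
  have hS : S.ShortExact :=
    { exact := by
        rw [ShortComplex.ShortExact.moduleCat_exact_iff_function_exact]
        exact hfg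
      mono_f := (ModuleCat.mono_iff_injective _).mpr hf
      epi_g := (ModuleCat.epi_iff_surjective _).mpr hg }
  obtain ⟨x, hx⟩ := Abelian.Ext.covariant_sequence_exact₃ (ModuleCat.of R M) hS
    (Abelian.Ext.mk₀ (𝟙 (ModuleCat.of R M))) (zero_add 1) (h.elim _ _)
  obtain ⟨s, rfl⟩ := (Abelian.Ext.mk₀_bijective _ _).2 x
  rw [Abelian.Ext.mk₀_comp_mk₀] at hx
  have h2 := (Abelian.Ext.mk₀_bijective _ _).1 hx
  refine ⟨s.hom, ?_⟩
  have h3 := congrArg ModuleCat.Hom.hom h2
  exact h3

variable {K : Type u} [Field K] {n : ℕ} (a : Fin n → ℕ) (q : Fin n → Fin n → K)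

/-- Algebra maps out of the opposite of the quantum complete intersection. -/
lemma exists_opHom {E : Type u} [Ring E] [Algebra K E] (Y : Fin n → E)
    (hq : ∀ i j, j < i → q i j ≠ 0)
    (hpow : ∀ i, Y i ^ a i = 0) (hcomm : ∀ i j, i ≠ j → Y i * Y j = rr q i j • (Y j * Y i)) :
    ∃ Ψ : (QuantumCI a q)ᵐᵒᵖ →ₐ[K] E, ∀ i, Ψ (MulOpposite.op (gen a q i)) = Y i := by
  let φ : FreeAlgebra K (Fin n) →ₐ[K] Eᵐᵒᵖ := FreeAlgebra.lift K (fun i => MulOpposite.op (Y i))
  have hφ : ∀ ⦃x y⦄, Rel a q x y → φ x = φ y := by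
    intro x y hxy
    induction hxy with
    | pow i =>
      simp only [φ, map_pow, FreeAlgebra.lift_ι_apply, map_zero]
      rw [← MulOpposite.op_pow, hpow, MulOpposite.op_zero]
    | comm i j h =>
      simp only [φ, map_add, map_mul, map_smul, FreeAlgebra.lift_ι_apply, map_zero]
      rw [← MulOpposite.op_mul, ← MulOpposite.op_mul, ← MulOpposite.op_smul, ← MulOpposite.op_add,
        hcomm i j (ne_of_gt h)]
      rw [rr, if_neg (not_lt.mpr h.le), smul_smul]
      have h0 := hq i j h
      have h1 : q i j * (-q i j)⁻¹ = - 1 := by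
        rw [inv_neg, mul_neg, mul_inv_cancel₀ h0]
      rw [h1, neg_smul, one_smul, add_neg_cancel, MulOpposite.op_zero]
  let φ' : QuantumCI a q →ₐ[K] Eᵐᵒᵖ := RingQuot.liftAlgHom K ⟨φ, hφ⟩
  refine ⟨AlgHom.opComm φ', ?_⟩
  intro i
  have h1 : φ' (gen a q i) = MulOpposite.op (Y i) := by
    rw [gen]
    simp only [φ']
    rw [RingQuot.liftAlgHom_mkAlgHom_apply]
    exact FreeAlgebra.lift_ι_apply _ _
  rw [AlgHom.opComm_apply_apply]
  simp [h1]

/-- The action of the generators on a right module. -/
noncomputable def act (M : Type u) [AddCommGroup M] [Module K M] [Module (QuantumCI a q)ᵐᵒᵖ M]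
    [IsScalarTower K (QuantumCI a q)ᵐᵒᵖ M] (i : Fin n) : Module.End K M :=
  Algebra.lsmul K K M (MulOpposite.op (gen a q i))

lemma act_apply (M : Type u) [AddCommGroup M] [Module K M] [Module (QuantumCI a q)ᵐᵒᵖ M]
    [IsScalarTower K (QuantumCI a q)ᵐᵒᵖ M] (i : Fin n) (m : M) :
    act a q M i m = MulOpposite.op (gen a q i) • m := rfl

lemma act_pow (M : Type u) [AddCommGroup M] [Module K M] [Module (QuantumCI a q)ᵐᵒᵖ M]
    [IsScalarTower K (QuantumCI a q)ᵐᵒᵖ M] (i : Fin n) : act a q M i ^ a i = 0 := by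
  rw [act, ← map_pow, ← MulOpposite.op_pow, gen_pow, MulOpposite.op_zero, map_zero]

lemma act_comm (hq : ∀ i j, j < i → q i j ≠ 0)
    (M : Type u) [AddCommGroup M] [Module K M] [Module (QuantumCI a q)ᵐᵒᵖ M]
    [IsScalarTower K (QuantumCI a q)ᵐᵒᵖ M] (i j : Fin n) (hij : i ≠ j) :
    act a q M i * act a q M j = rr q i j • (act a q M j * act a q M i) := by
  rw [act, act, ← map_mul, ← map_mul, ← map_smul, ← MulOpposite.op_mul, ← MulOpposite.op_mul,
    ← MulOpposite.op_smul, gen_mul_gen a q hq i j hij]

/-- Maps commuting with all generators are linear. -/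
lemma linear_of_commute (M N : Type u) [AddCommGroup M] [Module K M]
    [Module (QuantumCI a q)ᵐᵒᵖ M] [IsScalarTower K (QuantumCI a q)ᵐᵒᵖ M]
    [AddCommGroup N] [Module K N]
    [Module (QuantumCI a q)ᵐᵒᵖ N] [IsScalarTower K (QuantumCI a q)ᵐᵒᵖ N]
    (g : M →ₗ[K] N) (hg : ∀ i m, g (act a q M i m) = act a q N i (g m))
    (b : (QuantumCI a q)ᵐᵒᵖ) (m : M) : g (b • m) = b • g m := by
  obtain ⟨x, rfl⟩ := MulOpposite.op_surjective b
  induction x using induction_gen a q generalizing m with
  | hK c =>
    have h1 : MulOpposite.op (algebraMap K (QuantumCI a q) c) =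
      algebraMap K (QuantumCI a q)ᵐᵒᵖ c := rfl
    rw [h1, algebraMap_smul, algebraMap_smul, map_smul]
  | hgen i => exact hg i m
  | hadd x y hx hy => rw [MulOpposite.op_add, add_smul, add_smul, map_add, hx, hy]
  | hmul x y hx hy => rw [MulOpposite.op_mul, mul_smul, mul_smul, hy, hx]

lemma rr_mul_rr (hq : ∀ i j, j < i → q i j ≠ 0) (i j : Fin n) (hij : i ≠ j) :
    rr q i j * rr q j i = 1 := by
  rcases lt_or_gt_of_ne hij with h | h
  · rw [rr, rr, if_pos h, if_neg (not_lt.mpr h.le)]
    exact mul_inv_cancel₀ (neg_ne_zero.mpr (hq _ _ h))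
  · rw [rr, rr, if_pos h, if_neg (not_lt.mpr h.le)]
    exact inv_mul_cancel₀ (neg_ne_zero.mpr (hq _ _ h))

/-- A self-extension splits when `Ext¹` vanishes; operator form. -/
lemma ext_aux (M : Type u) [AddCommGroup M] [Module K M] [Module (QuantumCI a q)ᵐᵒᵖ M]
    [IsScalarTower K (QuantumCI a q)ᵐᵒᵖ M]
    (h : Subsingleton (Abelian.Ext (ModuleCat.of (QuantumCI a q)ᵐᵒᵖ M)
      (ModuleCat.of (QuantumCI a q)ᵐᵒᵖ M) 1))
    (i : Fin n) (f : Module.End K M)
    (E : Type u) [AddCommGroup E] [Module K E] [Module (QuantumCI a q)ᵐᵒᵖ E]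
    [IsScalarTower K (QuantumCI a q)ᵐᵒᵖ E] (e : E ≃ₗ[K] (M × M))
    (hei : ∀ m, e (act a q E i m) = (act a q M i (e m).1, act a q M i (e m).2 + f (e m).1))
    (hej : ∀ j, j ≠ i → ∀ m, e (act a q E j m) = (act a q M j (e m).1, act a q M j (e m).2)) :
    ∃ s : Module.End K M, s * act a q M i - act a q M i * s = f ∧
      ∀ j, j ≠ i → s * act a q M j = act a q M j * s := by
  -- the two maps
  let f0 : M →ₗ[K] E := e.symm.toLinearMap ∘ₗ LinearMap.inr K M M
  let g0 : E →ₗ[K] M := LinearMap.fst K M M ∘ₗ e.toLinearMap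
  have hf0 : ∀ m, e (f0 m) = (0, m) := by intro m; simp [f0]
  have hg0 : ∀ m, g0 m = (e m).1 := by intro m; simp [g0]
  let f1 : M →ₗ[(QuantumCI a q)ᵐᵒᵖ] E :=
    { toFun := f0
      map_add' := f0.map_add
      map_smul' := by
        intro b m
        apply linear_of_commute a q M E f0
        intro j m
        apply e.injective
        rcases eq_or_ne j i with rfl | hj
        · rw [hf0, hei, hf0]; simp
        · rw [hf0, hej j hj, hf0]; simp }
  let g1 : E →ₗ[(QuantumCI a q)ᵐᵒᵖ] M :=
    { toFun := g0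
      map_add' := g0.map_add
      map_smul' := by
        intro b m
        apply linear_of_commute a q E M g0
        intro j m
        rw [hg0, hg0]
        rcases eq_or_ne j i with rfl | hj
        · rw [hei]
        · rw [hej j hj] }
  have hf1 : ∀ m, e (f1 m) = (0, m) := hf0
  have hg1 : ∀ m, g1 m = (e m).1 := hg0
  obtain ⟨s, hs⟩ := exists_section_of_subsingleton_ext M E f1 g1
    (by
      intro x y hxy
      have := congrArg e hxy
      rw [hf1, hf1] at this
      exact (Prod.ext_iff.mp this).2)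
    (by
      intro x
      refine ⟨e.symm (x, 0), ?_⟩
      rw [hg1, LinearEquiv.apply_symm_apply])
    (by
      intro m
      constructor
      · intro hm
        rw [hg1] at hm
        refine ⟨(e m).2, ?_⟩
        apply e.injective
        rw [hf1]
        exact Prod.ext hm.symm rfl
      · rintro ⟨x, rfl⟩
        rw [hg1, hf1])
    h
  let σ : Module.End K M := (LinearMap.snd K M M) ∘ₗ e.toLinearMap ∘ₗ s.restrictScalars K
  have hs1 : ∀ m, e (s m) = (m, σ m) := by
    intro m
    have h1 : g1 (s m) = m := LinearMap.congr_fun hs m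
    rw [hg1] at h1
    exact Prod.ext h1 rfl
  have hs2 : ∀ j m, s (act a q M j m) = act a q E j (s m) := fun j m => map_smul s _ _
  refine ⟨σ, ?_, ?_⟩
  · apply LinearMap.ext
    intro m
    have h1 := congrArg e (hs2 i m)
    rw [hs1, hei, hs1] at h1
    have h2 := (Prod.ext_iff.mp h1).2
    simp only at h2
    rw [LinearMap.sub_apply, Module.End.mul_apply, Module.End.mul_apply, h2]
    abel
  · intro j hj
    apply LinearMap.ext
    intro m
    have h1 := congrArg e (hs2 j m)
    rw [hs1, hej j hj, hs1] at h1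
    exact (Prod.ext_iff.mp h1).2

/-- Vanishing of self-extensions, in terms of operators. -/
lemma operator_of_ext (hq : ∀ i j, j < i → q i j ≠ 0)
    (M : Type u) [AddCommGroup M] [Module K M] [Module (QuantumCI a q)ᵐᵒᵖ M]
    [IsScalarTower K (QuantumCI a q)ᵐᵒᵖ M]
    (h : Subsingleton (Abelian.Ext (ModuleCat.of (QuantumCI a q)ᵐᵒᵖ M)
      (ModuleCat.of (QuantumCI a q)ᵐᵒᵖ M) 1))
    (i : Fin n) (f : Module.End K M)
    (hf : ∀ j, j ≠ i → f * act a q M j = rr q i j • (act a q M j * f))
    (hf2 : ∑ k ∈ Finset.range (a i), act a q M i ^ k * f * act a q M i ^ (a i - 1 - k) = 0) :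
    ∃ s : Module.End K M, s * act a q M i - act a q M i * s = f ∧
      ∀ j, j ≠ i → s * act a q M j = act a q M j * s := by
  classical
  set X := act a q M with hX
  -- operators on the extension
  let Y : Fin n → Module.End K (M × M) := fun j =>
    (X j).prodMap (X j) + (if j = i then LinearMap.inr K M M ∘ₗ f ∘ₗ LinearMap.fst K M M else 0)
  have hYi : ∀ m : M × M, Y i m = (X i m.1, X i m.2 + f m.1) := by
    rintro ⟨m1, m2⟩
    simp [Y]
  have hYj : ∀ j, j ≠ i → ∀ m : M × M, Y j m = (X j m.1, X j m.2) := by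
    rintro j hj ⟨m1, m2⟩
    simp [Y, hj]
  have hYpow : ∀ l : ℕ, ∀ m : M × M, (Y i ^ l) m = ((X i ^ l) m.1, (X i ^ l) m.2 +
      (∑ k ∈ Finset.range l, X i ^ k * f * X i ^ (l - 1 - k)) m.1) := by
    intro l
    induction l with
    | zero => intro m; simp
    | succ l ih =>
      rintro ⟨m1, m2⟩
      rw [pow_succ', Module.End.mul_apply, ih, hYi]
      ext
      · simp [pow_succ']
      · rw [Finset.sum_range_succ']
        simp only [pow_succ', Module.End.mul_apply, map_add, LinearMap.add_apply, pow_zero,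
          Module.End.one_apply, LinearMap.sum_apply, map_sum, Nat.add_sub_cancel, Nat.sub_zero]
        rw [add_assoc]
        congr 2
        apply Finset.sum_congr rfl
        intro k hk
        have : l - (k + 1) = l - 1 - k := by omega
        rw [this]
  have hYpow' : ∀ j, j ≠ i → ∀ l : ℕ, ∀ m : M × M,
      (Y j ^ l) m = ((X j ^ l) m.1, (X j ^ l) m.2) := by
    intro j hj l
    induction l with
    | zero => intro m; simp
    | succ l ih =>
      intro m
      rw [pow_succ', Module.End.mul_apply, ih, hYj j hj, pow_succ', Module.End.mul_apply,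
        Module.End.mul_apply]
  have hY1 : ∀ j, Y j ^ a j = 0 := by
    intro j
    apply LinearMap.ext
    intro m
    rcases eq_or_ne j i with rfl | hj
    · rw [hYpow, hf2, hX, act_pow]
      simp
    · rw [hYpow' j hj, hX, act_pow]
      simp
  have hXc : ∀ u v, u ≠ v → ∀ m, X u (X v m) = rr q u v • X v (X u m) := by
    intro u v huv m
    have := LinearMap.congr_fun (act_comm a q hq M u v huv) m
    simpa using this
  have hfc : ∀ v, v ≠ i → ∀ m, f (X v m) = rr q i v • X v (f m) := by
    intro v hv m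
    have := LinearMap.congr_fun (hf v hv) m
    simpa using this
  have hY2 : ∀ u v, u ≠ v → Y u * Y v = rr q u v • (Y v * Y u) := by
    intro u v huv
    apply LinearMap.ext
    intro m
    rw [Module.End.mul_apply, LinearMap.smul_apply, Module.End.mul_apply]
    rcases eq_or_ne u i with rfl | hu
    · have hv : v ≠ u := Ne.symm huv
      rw [hYi, hYj v hv, hYj v hv, hYi]
      simp only [Prod.smul_mk, map_add, smul_add]
      rw [hXc u v huv, hXc u v huv, hfc v hv]
    · rcases eq_or_ne v i with rfl | hv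
      · rw [hYi, hYj u hu, hYj u hu, hYi]
        simp only [Prod.smul_mk, map_add, smul_add]
        rw [hXc u v huv, hXc u v huv, hfc u hu, smul_smul, rr_mul_rr q hq u v huv, one_smul]
      · rw [hYj u hu, hYj v hv, hYj u hu, hYj v hv]
        simp only [Prod.smul_mk]
        rw [hXc u v huv, hXc u v huv]
  obtain ⟨Ψ, hΨ⟩ := exists_opHom a q Y hq hY1 hY2
  let inst1 : Module (QuantumCI a q)ᵐᵒᵖ (M × M) :=
    Module.compHom (M × M) (Ψ : (QuantumCI a q)ᵐᵒᵖ →+* Module.End K (M × M))
  have inst2 : @IsScalarTower K (QuantumCI a q)ᵐᵒᵖ (M × M) _ inst1.toSMul _ := by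
    refine @IsScalarTower.mk _ _ _ _ (_) _ ?_
    intro c b m
    change Ψ (c • b) m = c • (Ψ b m)
    rw [map_smul]
    rfl
  have hact : ∀ j (m : M × M), @act K _ n a q (M × M) _ _ inst1 inst2 j m = Y j m := by
    intro j m
    change Ψ (MulOpposite.op (gen a q j)) m = Y j m
    rw [hΨ]
  exact @ext_aux K _ n a q M _ _ _ _ h i f (M × M) _ _ inst1 inst2 (LinearEquiv.refl K (M × M))
    (by
      intro m
      rw [LinearEquiv.refl_apply, LinearEquiv.refl_apply, hact, hYi])
    (by
      intro j hj m
      rw [LinearEquiv.refl_apply, LinearEquiv.refl_apply, hact, hYj j hj])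

end ExtPart

section Final

open CategoryTheory

variable {K : Type u} [Field K] {n : ℕ} (a : Fin n → ℕ) (q : Fin n → Fin n → K)

lemma act_pow_act (hq : ∀ i j, j < i → q i j ≠ 0)
    (M : Type u) [AddCommGroup M] [Module K M] [Module (QuantumCI a q)ᵐᵒᵖ M]
    [IsScalarTower K (QuantumCI a q)ᵐᵒᵖ M] (i j : Fin n) (hij : i ≠ j) (k : ℕ) (m : M) :
    (act a q M i ^ k) (act a q M j m) = (rr q i j) ^ k • act a q M j ((act a q M i ^ k) m) := by
  induction k generalizing m with
  | zero => simp
  | succ k ih =>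
    have h1 : act a q M i (act a q M j m) = rr q i j • act a q M j (act a q M i m) := by
      have := LinearMap.congr_fun (act_comm a q hq M i j hij) m
      simpa using this
    rw [pow_succ, Module.End.mul_apply, h1, map_smul, ih, smul_smul, Module.End.mul_apply,
      pow_succ (rr q i j), mul_comm]

/-- Relative projectivity in each variable gives projectivity. -/
lemma projective_of_trace (hq : ∀ i j, j < i → q i j ≠ 0) (ha : ∀ i, 1 ≤ a i)
    (M : Type u) [AddCommGroup M] [Module K M] [Module (QuantumCI a q)ᵐᵒᵖ M]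
    [IsScalarTower K (QuantumCI a q)ᵐᵒᵖ M]
    (F : Fin n → Module.End K M)
    (hF1 : ∀ i j, j ≠ i → ∀ m, rr q i j ^ (a i - 1) • F i (act a q M j m) = act a q M j (F i m))
    (hF2 : ∀ i, ∑ k ∈ Finset.range (a i), act a q M i ^ k * F i * act a q M i ^ (a i - 1 - k) = 1) :
    Module.Projective (QuantumCI a q)ᵐᵒᵖ M := by
  classical
  set B := (QuantumCI a q)ᵐᵒᵖ with hB
  let N := M →₀ B
  let π : N →ₗ[B] M := Finsupp.linearCombination B (id : M → M)
  have hπs : Function.Surjective π := Finsupp.linearCombination_id_surjective B M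
  let πK : N →ₗ[K] M := π.restrictScalars K
  obtain ⟨g0, hg0⟩ := πK.exists_rightInverse_of_surjective (LinearMap.range_eq_top.mpr hπs)
  have hπact : ∀ i x, π (act a q N i x) = act a q M i (π x) := fun i x => map_smul π _ _
  have key : ∀ S : Finset (Fin n), ∃ g : M →ₗ[K] N, (∀ m, π (g m) = m) ∧
      ∀ j ∈ S, ∀ m, g (act a q M j m) = act a q N j (g m) := by
    intro S
    induction S using Finset.induction_on with
    | empty => exact ⟨g0, fun m => LinearMap.congr_fun hg0 m, by simp⟩
    | insert i S hi ih =>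
      obtain ⟨g, hg1, hg2⟩ := ih
      let g' : M →ₗ[K] N := ∑ k ∈ Finset.range (a i),
        (act a q N i ^ k) ∘ₗ g ∘ₗ F i ∘ₗ (act a q M i ^ (a i - 1 - k))
      have hg' : ∀ m, g' m = ∑ k ∈ Finset.range (a i),
          (act a q N i ^ k) (g (F i ((act a q M i ^ (a i - 1 - k)) m))) := by
        intro m
        simp [g']
      have hπpow : ∀ k x, π ((act a q N i ^ k) x) = (act a q M i ^ k) (π x) := by
        intro k
        induction k with
        | zero => intro x; simp
        | succ k ih =>
          intro x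
          rw [pow_succ, Module.End.mul_apply, ih, hπact, pow_succ, Module.End.mul_apply]
      refine ⟨g', ?_, ?_⟩
      · intro m
        rw [hg', map_sum]
        have := LinearMap.congr_fun (hF2 i) m
        rw [Module.End.one_apply, LinearMap.sum_apply] at this
        conv_rhs => rw [← this]
        apply Finset.sum_congr rfl
        intro k _
        rw [hπpow, hg1]
        rfl
      · intro j hj m
        rcases eq_or_ne j i with rfl | hji
        · -- the new variable
          rw [hg', hg', map_sum]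
          obtain ⟨b, hb⟩ : ∃ b, a j = b + 1 := ⟨a j - 1, by have := ha j; omega⟩
          rw [hb, Finset.sum_range_succ', Finset.sum_range_succ]
          have h1 : (act a q M j ^ (b + 1 - 1 - 0)) (act a q M j m) = 0 := by
            rw [← Module.End.mul_apply, ← pow_succ]
            have h2 : b + 1 - 1 - 0 + 1 = a j := by omega
            rw [h2, act_pow]
            simp
          have h2 : ∀ x, act a q N j ((act a q N j ^ b) x) = 0 := by
            intro x
            rw [← Module.End.mul_apply, ← pow_succ', ← hb, act_pow]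
            simp
          rw [h1, h2]
          simp only [map_zero, add_zero]
          apply Finset.sum_congr rfl
          intro k hk
          rw [Finset.mem_range] at hk
          rw [← Module.End.mul_apply (act a q M j ^ _), ← pow_succ, pow_succ' (act a q N j) k,
            Module.End.mul_apply]
          have h3 : b + 1 - 1 - (k + 1) + 1 = b + 1 - 1 - k := by omega
          rw [h3]
        · have hjS : j ∈ S := by
            rcases Finset.mem_insert.mp hj with h | h
            · exact absurd h hji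
            · exact h
          rw [hg', hg', map_sum]
          apply Finset.sum_congr rfl
          intro k hk
          rw [Finset.mem_range] at hk
          have hr0 := rr_ne_zero q hq i j (Ne.symm hji)
          rw [act_pow_act a q hq M i j (Ne.symm hji), map_smul]
          have h1 : ∀ y, F i (act a q M j y) = (rr q i j ^ (a i - 1))⁻¹ • act a q M j (F i y) := by
            intro y
            rw [← hF1 i j hji y, smul_smul, inv_mul_cancel₀ (pow_ne_zero _ hr0), one_smul]
          rw [h1, smul_smul, map_smul, hg2 j hjS, map_smul,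
            act_pow_act a q hq N i j (Ne.symm hji), smul_smul]
          have h2 : rr q i j ^ (a i - 1 - k) * (rr q i j ^ (a i - 1))⁻¹ * rr q i j ^ k = 1 := by
            have h3 : a i - 1 = (a i - 1 - k) + k := by omega
            have h4 : rr q i j ^ (a i - 1) = rr q i j ^ (a i - 1 - k) * rr q i j ^ k := by
              rw [← pow_add, ← h3]
            rw [h4]
            have h5 := pow_ne_zero (a i - 1 - k) hr0
            have h6 := pow_ne_zero k hr0
            field_simp
          rw [h2, one_smul]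
  obtain ⟨g, hg1, hg2⟩ := key Finset.univ
  let s : M →ₗ[B] N :=
    { toFun := g
      map_add' := g.map_add
      map_smul' := fun b m => linear_of_commute a q M N g
        (fun i m => hg2 i (Finset.mem_univ i) m) b m }
  rw [Module.projective_def']
  exact ⟨s, LinearMap.ext hg1⟩

theorem main (ha : ∀ i, 1 ≤ a i) (hq : ∀ i j, j < i → q i j ≠ 0)
    (M : Type u) [AddCommGroup M] [Module (QuantumCI a q)ᵐᵒᵖ M]
    [Module.Finite (QuantumCI a q)ᵐᵒᵖ M]
    (h : Subsingleton (Abelian.Ext (ModuleCat.of (QuantumCI a q)ᵐᵒᵖ M)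
      (ModuleCat.of (QuantumCI a q)ᵐᵒᵖ M) 1)) :
    Module.Projective (QuantumCI a q)ᵐᵒᵖ M := by
  classical
  let iK : Module K M := Module.compHom M (algebraMap K (QuantumCI a q)ᵐᵒᵖ)
  have iT : IsScalarTower K (QuantumCI a q)ᵐᵒᵖ M := by
    constructor
    intro c b m
    change (c • b) • m = (algebraMap K (QuantumCI a q)ᵐᵒᵖ c) • b • m
    rw [Algebra.smul_def, mul_smul]
  have iF0 : Module.Finite K (QuantumCI a q) := finite_QuantumCI a q hq
  have iF1 : Module.Finite K (QuantumCI a q)ᵐᵒᵖ := Module.Finite.equiv (MulOpposite.opLinearEquiv K)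
  have iF : Module.Finite K M := Module.Finite.trans (QuantumCI a q)ᵐᵒᵖ M
  let b := Module.finBasis K M
  let e : Module.End K M ≃ₐ[K] Matrix (Fin (Module.finrank K M)) (Fin (Module.finrank K M)) K :=
    LinearMap.toMatrixAlgEquiv b
  have hE : ExtVan (fun i => e (act a q M i)) a (rr q) := by
    intro i f hf hf2
    obtain ⟨s, hs1, hs2⟩ := operator_of_ext a q hq M h i (e.symm f)
      (by
        intro j hj
        apply e.injective
        have := hf j hj
        simpa using this)
      (by
        apply e.injective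
        have := hf2
        simpa using this)
    refine ⟨e s, ?_, ?_⟩
    · rw [← map_mul, ← map_mul, ← map_sub, hs1, AlgEquiv.apply_symm_apply]
    · intro j hj
      rw [← map_mul, ← map_mul, hs2 j hj]
  have hX : ∀ i j, i ≠ j → e (act a q M i) * e (act a q M j) =
      rr q i j • (e (act a q M j) * e (act a q M i)) := by
    intro i j hij
    rw [← map_mul, ← map_mul, ← map_smul, act_comm a q hq M i j hij]
  have hpow : ∀ i, e (act a q M i) ^ a i = 0 := by
    intro i
    rw [← map_pow, act_pow, map_zero]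
  choose f hf1 hf2 using exists_trace_one (fun i => e (act a q M i)) a (rr q)
    (rr_ne_zero q hq) hX hpow ha hE
  apply projective_of_trace a q hq ha M (fun i => e.symm (f i))
  · intro i j hj m
    have h1 := congrArg e.symm (hf1 i j hj)
    rw [map_smul, map_mul, map_mul, AlgEquiv.symm_apply_apply] at h1
    exact LinearMap.congr_fun h1 m
  · intro i
    have h1 := congrArg e.symm (hf2 i)
    simpa using h1

end Final

/-- **No self-orthogonal non-projective modules over quantum complete intersections.**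
For every field `K`, all exponents `a i ≥ 2` and all parameters `q i j ≠ 0` (`j < i`), every
finitely generated non-projective right module `M` over the quantum complete intersection
`A = K⟨x_1, …, x_n⟩ / (x_i ^ a_i, x_i x_j + q_{i,j} x_j x_i (i > j))` has `Ext¹_A(M, M) ≠ 0`.
Right `A`-modules are modules over `Aᵐᵒᵖ`, and `Ext` is Mathlib's `CategoryTheory.Abelian.Ext` in
the category of all `Aᵐᵒᵖ`-modules. -/
theorem result (K : Type u) [Field K] (n : ℕ) (a : Fin n → ℕ) (ha : ∀ i, 2 ≤ a i)
    (q : Fin n → Fin n → K) (hq : ∀ i j, j < i → q i j ≠ 0)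
    (M : Type u) [AddCommGroup M] [Module (QuantumCI a q)ᵐᵒᵖ M]
    [Module.Finite (QuantumCI a q)ᵐᵒᵖ M]
    (hM : ¬ Module.Projective (QuantumCI a q)ᵐᵒᵖ M) :
    Nontrivial (CategoryTheory.Abelian.Ext (ModuleCat.of (QuantumCI a q)ᵐᵒᵖ M)
      (ModuleCat.of (QuantumCI a q)ᵐᵒᵖ M) 1) := by
  by_contra h
  rw [not_nontrivial_iff_subsingleton] at h
  exact hM (main a q (fun i => le_trans one_le_two (ha i)) hq M h)

end Pool.Agent.Results.MP_315024_al.ExtNonvanishing
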